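import Mathlib
import Pool.Agent.Helper745.FS.B3

set_option autoImplicit false

/-! Averaging and Ramsey theory for products of functions, helper891. -/

namespace Pool.Agent.TH891.Rec

open Finset MeasureTheory

/-- tangent line inequality for powers -/
lemma tangent (k : ℕ) {x c : ℝ} (hx : 0 ≤ x) (hc : 0 ≤ c) :
    c ^ (k + 1) + (k + 1) * c ^ k * (x - c) ≤ x ^ (k + 1) := by
  induction k with
  | zero => simp
  | succ k ih =>
    have h1 : x * (c ^ (k + 1) + (k + 1) * c ^ k * (x - c)) ≤ x * x ^ (k + 1) :=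
      mul_le_mul_of_nonneg_left ih hx
    have h2 : 0 ≤ ((k : ℝ) + 1) * (c ^ k * (x - c) ^ 2) := by positivity
    have e : x * (c ^ (k + 1) + (k + 1) * c ^ k * (x - c)) -
        (c ^ (k + 1 + 1) + ((k + 1 : ℕ) + 1) * c ^ (k + 1) * (x - c)) =
        ((k : ℝ) + 1) * (c ^ k * (x - c) ^ 2) := by
      push_cast
      ring
    rw [pow_succ' x (k + 1)]
    linarith

/-- the tuples with a repetition -/
lemma card_noninj (k : ℕ) (S : Finset ℕ) :
    ((Fintype.piFinset (fun _ : Fin (k + 1) => S)).filter (fun a => ¬ Function.Injective a)).card ≤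
      (k + 1) ^ 2 * S.card ^ k := by
  classical
  have hsub : (Fintype.piFinset (fun _ : Fin (k + 1) => S)).filter (fun a => ¬ Function.Injective a) ⊆
      ((univ : Finset (Fin (k + 1) × Fin (k + 1))).filter (fun q => q.1 ≠ q.2)).biUnion (fun q =>
        (Fintype.piFinset (fun _ : Fin (k + 1) => S)).filter (fun a => a q.1 = a q.2)) := by
    intro a ha
    rw [mem_filter] at ha
    obtain ⟨h1, h2⟩ := ha
    unfold Function.Injective at h2
    push Not at h2
    obtain ⟨i, j, hij, hne⟩ := h2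
    rw [mem_biUnion]
    exact ⟨(i, j), by simp [hne], by rw [mem_filter]; exact ⟨h1, hij⟩⟩
  refine (card_le_card hsub).trans (card_biUnion_le.trans ?_)
  have hb : ∀ q ∈ (univ : Finset (Fin (k + 1) × Fin (k + 1))).filter (fun q => q.1 ≠ q.2),
      ((Fintype.piFinset (fun _ : Fin (k + 1) => S)).filter (fun a => a q.1 = a q.2)).card ≤ S.card ^ k := by
    intro q hq
    rw [mem_filter] at hq
    have : ((Fintype.piFinset (fun _ : Fin (k + 1) => S)).filter (fun a => a q.1 = a q.2)).card ≤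
        (Fintype.piFinset (fun _ : Fin k => S)).card := by
      apply card_le_card_of_injOn (fun a j => a (q.1.succAbove j))
      · intro a ha
        rw [mem_coe, mem_filter, Fintype.mem_piFinset] at ha
        rw [mem_coe, Fintype.mem_piFinset]
        exact fun j => ha.1 _
      · intro a ha b hb hab
        rw [mem_coe, mem_filter] at ha hb
        funext i
        rcases eq_or_ne i q.1 with rfl | hi
        · obtain ⟨j, hj⟩ := Fin.exists_succAbove_eq hq.2.symm
          have := congrFun hab j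
          simp only at this
          rw [hj] at this
          rw [ha.2, hb.2, this]
        · obtain ⟨j, hj⟩ := Fin.exists_succAbove_eq hi
          have := congrFun hab j
          simp only at this
          rw [hj] at this
          exact this
    refine this.trans (le_of_eq ?_)
    rw [Fintype.card_piFinset, prod_const, card_univ, Fintype.card_fin]
  refine (sum_le_card_nsmul _ _ _ hb).trans ?_
  rw [smul_eq_mul]
  apply Nat.mul_le_mul_right
  refine (card_filter_le _ _).trans ?_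
  rw [card_univ, Fintype.card_prod, Fintype.card_fin, sq]

universe u

variable {Ω : Type u} [MeasurableSpace Ω]

lemma integrable_prod (μ : Measure Ω) [IsProbabilityMeasure μ] {ι : Type} (s : Finset ι) (f : ι → Ω → ℝ)
    (hm : ∀ i ∈ s, Measurable (f i)) (h0 : ∀ i ∈ s, ∀ ω, 0 ≤ f i ω) (h1 : ∀ i ∈ s, ∀ ω, f i ω ≤ 1) :
    Integrable (fun ω => ∏ i ∈ s, f i ω) μ := by
  refine Integrable.of_bound (C := 1) ?_ ?_
  · apply Measurable.aestronglyMeasurable
    exact Finset.measurable_prod s hm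
  · filter_upwards with ω
    rw [Real.norm_eq_abs, abs_of_nonneg (prod_nonneg fun i hi => h0 i hi ω)]
    exact prod_le_one (fun i hi => h0 i hi ω) (fun i hi => h1 i hi ω)

lemma prod_int_le_one (μ : Measure Ω) [IsProbabilityMeasure μ] {ι : Type} (s : Finset ι) (f : ι → Ω → ℝ)
    (hm : ∀ i ∈ s, Measurable (f i)) (h0 : ∀ i ∈ s, ∀ ω, 0 ≤ f i ω) (h1 : ∀ i ∈ s, ∀ ω, f i ω ≤ 1) :
    ∫ ω, ∏ i ∈ s, f i ω ∂μ ≤ 1 := by
  calc ∫ ω, ∏ i ∈ s, f i ω ∂μ ≤ ∫ _ω, (1 : ℝ) ∂μ := by
        apply integral_mono (integrable_prod μ s f hm h0 h1) (integrable_const _)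
        intro ω
        exact prod_le_one (fun i hi => h0 i hi ω) (fun i hi => h1 i hi ω)
    _ = 1 := by simp

/-- averaging over all tuples -/
lemma avg (μ : Measure Ω) [IsProbabilityMeasure μ] (k : ℕ) (S : Finset ℕ) (f : ℕ → Ω → ℝ)
    (hm : ∀ v ∈ S, Measurable (f v)) (h0 : ∀ v ∈ S, ∀ ω, 0 ≤ f v ω) (h1 : ∀ v ∈ S, ∀ ω, f v ω ≤ 1)
    {β : ℝ} (hβ : 0 ≤ β) (h : ∀ v ∈ S, β ≤ ∫ ω, f v ω ∂μ) :
    (S.card * β) ^ (k + 1) ≤
      ∑ a ∈ Fintype.piFinset (fun _ : Fin (k + 1) => S), ∫ ω, ∏ i, f (a i) ω ∂μ := by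
  have hint : ∀ v ∈ S, Integrable (f v) μ := by
    intro v hv
    refine Integrable.of_bound (C := 1) (hm v hv).aestronglyMeasurable ?_
    filter_upwards with ω
    rw [Real.norm_eq_abs, abs_of_nonneg (h0 v hv ω)]
    exact h1 v hv ω
  have hXint : Integrable (fun ω => ∑ v ∈ S, f v ω) μ := integrable_finsetSum _ hint
  have e1 : ∀ ω, (∑ v ∈ S, f v ω) ^ (k + 1) =
      ∑ a ∈ Fintype.piFinset (fun _ : Fin (k + 1) => S), ∏ i, f (a i) ω := by
    intro ω
    have := Finset.prod_univ_sum (fun _ : Fin (k + 1) => S) (fun _ v => f v ω)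
    rw [← this, prod_const, card_univ, Fintype.card_fin]
  have hint2 : ∀ a ∈ Fintype.piFinset (fun _ : Fin (k + 1) => S),
      Integrable (fun ω => ∏ i, f (a i) ω) μ := by
    intro a ha
    rw [Fintype.mem_piFinset] at ha
    exact integrable_prod μ univ (fun i => f (a i)) (fun i _ => hm _ (ha i)) (fun i _ => h0 _ (ha i))
      (fun i _ => h1 _ (ha i))
  rw [← integral_finsetSum _ hint2]
  simp_rw [← e1]
  set c : ℝ := ∫ ω, ∑ v ∈ S, f v ω ∂μ with hc
  have hcS : S.card * β ≤ c := by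
    rw [hc, integral_finsetSum _ hint]
    calc (S.card : ℝ) * β = ∑ _v ∈ S, β := by rw [sum_const, nsmul_eq_mul]
      _ ≤ _ := sum_le_sum h
  have hc0 : 0 ≤ c := le_trans (by positivity) hcS
  have hpow : Integrable (fun ω => (∑ v ∈ S, f v ω) ^ (k + 1)) μ := by
    simp_rw [e1]
    exact integrable_finsetSum _ hint2
  have hg : Integrable (fun ω => (∑ v ∈ S, f v ω) - c) μ := hXint.sub (integrable_const c)
  calc (S.card * β) ^ (k + 1) ≤ c ^ (k + 1) := pow_le_pow_left₀ (by positivity) hcS _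
    _ = ∫ ω, (c ^ (k + 1) + (k + 1) * c ^ k * ((∑ v ∈ S, f v ω) - c)) ∂μ := by
        rw [integral_add (integrable_const _) (hg.const_mul _),
          integral_const_mul, integral_sub hXint (integrable_const _), ← hc]
        simp
    _ ≤ ∫ ω, (∑ v ∈ S, f v ω) ^ (k + 1) ∂μ := by
        apply integral_mono
        · exact (integrable_const _).add (hg.const_mul _)
        · exact hpow
        · intro ω
          exact tangent k (sum_nonneg fun v hv => h0 v hv ω) hc0

open Classical in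
/-- in a large set some injective tuple has a large integral -/
lemma exists_large (μ : Measure Ω) [IsProbabilityMeasure μ] (k : ℕ) (S : Finset ℕ) (f : ℕ → Ω → ℝ)
    (hm : ∀ v ∈ S, Measurable (f v)) (h0 : ∀ v ∈ S, ∀ ω, 0 ≤ f v ω) (h1 : ∀ v ∈ S, ∀ ω, f v ω ≤ 1)
    {β δ ε : ℝ} (hβ : 0 ≤ β) (hβ1 : β ≤ 1) (hδ : 0 ≤ δ) (hδ1 : δ ≤ 1) (hδε : (k + 1) * 2 ^ k * δ ≤ ε / 2)
    (h : ∀ v ∈ S, β ≤ ∫ ω, f v ω ∂μ) (h' : ∀ v ∈ S, ∫ ω, f v ω ∂μ ≤ β + δ)
    (hε : 0 < ε) (hS : 2 * (k + 1) ^ 2 < ε * S.card) (hS1 : k + 1 ≤ S.card) :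
    ∃ a : Fin (k + 1) → ℕ, (∀ i, a i ∈ S) ∧ Function.Injective a ∧
      (∏ i, ∫ ω, f (a i) ω ∂μ) - ε ≤ ∫ ω, ∏ i, f (a i) ω ∂μ := by
  by_contra hcon
  push Not at hcon
  set m : ℝ := (S.card : ℝ) with hmdef
  have hm0 : 0 < m := by
    have : 0 < S.card := by omega
    rw [hmdef]; exact_mod_cast this
  have hpow : (β + δ) ^ (k + 1) ≤ β ^ (k + 1) + ε / 2 := by
    have t := tangent k hβ (by linarith : 0 ≤ β + δ)
    have t2 : (β + δ) ^ k ≤ 2 ^ k := pow_le_pow_left₀ (by linarith) (by linarith) k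
    have t3 : ((k : ℝ) + 1) * (β + δ) ^ k * δ ≤ (k + 1) * 2 ^ k * δ := by gcongr
    have t4 : ((k : ℝ) + 1) * (β + δ) ^ k * (β - (β + δ)) = - (((k : ℝ) + 1) * (β + δ) ^ k * δ) := by ring
    linarith
  have hinj : ∀ a : Fin (k + 1) → ℕ, (∀ i, a i ∈ S) → Function.Injective a →
      ∫ ω, ∏ i, f (a i) ω ∂μ < β ^ (k + 1) - ε / 2 := by
    intro a ha hai
    have t1 := hcon a ha hai
    have t2 : ∏ i, ∫ ω, f (a i) ω ∂μ ≤ (β + δ) ^ (k + 1) := by
      calc ∏ i, ∫ ω, f (a i) ω ∂μ ≤ ∏ _i : Fin (k + 1), (β + δ) := by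
            apply prod_le_prod
            · intro i _
              exact hβ.trans (h _ (ha i))
            · intro i _
              exact h' _ (ha i)
        _ = _ := by rw [prod_const, card_univ, Fintype.card_fin]
    linarith
  -- existence of one injective tuple
  have hex : ∃ a : Fin (k + 1) → ℕ, (∀ i, a i ∈ S) ∧ Function.Injective a := by
    obtain ⟨T, hT, hTc⟩ := exists_subset_card_eq hS1
    exact ⟨fun i => T.orderEmbOfFin hTc i, fun i => hT (orderEmbOfFin_mem T hTc i),
      (T.orderEmbOfFin hTc).injective⟩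
  obtain ⟨a0, ha0, hai0⟩ := hex
  have hpos : 0 ≤ β ^ (k + 1) - ε / 2 := by
    have t := hinj a0 ha0 hai0
    have t2 : 0 ≤ ∫ ω, ∏ i, f (a0 i) ω ∂μ :=
      integral_nonneg fun ω => prod_nonneg fun i _ => h0 _ (ha0 i) ω
    linarith
  have hav := avg μ k S f hm h0 h1 hβ h
  have hsplit := sum_filter_add_sum_filter_not (Fintype.piFinset (fun _ : Fin (k + 1) => S))
    (fun a => Function.Injective a) (fun a => ∫ ω, ∏ i, f (a i) ω ∂μ)
  have hA : ∑ a ∈ (Fintype.piFinset (fun _ : Fin (k + 1) => S)).filter (fun a => Function.Injective a),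
      ∫ ω, ∏ i, f (a i) ω ∂μ ≤ m ^ (k + 1) * (β ^ (k + 1) - ε / 2) := by
    calc _ ≤ ∑ _a ∈ (Fintype.piFinset (fun _ : Fin (k + 1) => S)).filter (fun a => Function.Injective a),
          (β ^ (k + 1) - ε / 2) := by
          apply sum_le_sum
          intro a ha
          rw [mem_filter, Fintype.mem_piFinset] at ha
          exact (hinj a ha.1 ha.2).le
      _ = (((Fintype.piFinset (fun _ : Fin (k + 1) => S)).filter (fun a => Function.Injective a)).card : ℝ) *
          (β ^ (k + 1) - ε / 2) := by rw [sum_const, nsmul_eq_mul]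
      _ ≤ _ := by
          apply mul_le_mul_of_nonneg_right _ hpos
          have : ((Fintype.piFinset (fun _ : Fin (k + 1) => S)).filter (fun a => Function.Injective a)).card ≤
              S.card ^ (k + 1) := by
            refine (card_filter_le _ _).trans ?_
            rw [Fintype.card_piFinset, prod_const, card_univ, Fintype.card_fin]
          rw [hmdef]
          exact_mod_cast this
  have hB : ∑ a ∈ (Fintype.piFinset (fun _ : Fin (k + 1) => S)).filter (fun a => ¬ Function.Injective a),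
      ∫ ω, ∏ i, f (a i) ω ∂μ ≤ (k + 1) ^ 2 * m ^ k := by
    calc _ ≤ ∑ _a ∈ (Fintype.piFinset (fun _ : Fin (k + 1) => S)).filter (fun a => ¬ Function.Injective a),
          (1 : ℝ) := by
          apply sum_le_sum
          intro a ha
          rw [mem_filter, Fintype.mem_piFinset] at ha
          exact prod_int_le_one μ univ (fun i => f (a i)) (fun i _ => hm _ (ha.1 i))
            (fun i _ => h0 _ (ha.1 i)) (fun i _ => h1 _ (ha.1 i))
      _ = (((Fintype.piFinset (fun _ : Fin (k + 1) => S)).filter (fun a => ¬ Function.Injective a)).card : ℝ) := by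
          rw [sum_const, nsmul_eq_mul, mul_one]
      _ ≤ _ := by
          have := card_noninj k S
          rw [hmdef]
          exact_mod_cast this
  have hfin : (m * β) ^ (k + 1) ≤ m ^ (k + 1) * (β ^ (k + 1) - ε / 2) + (k + 1) ^ 2 * m ^ k := by
    linarith
  rw [mul_pow] at hfin
  have h5 : m ^ (k + 1) * (ε / 2) ≤ (k + 1) ^ 2 * m ^ k := by linarith
  have h6 : m ^ k * (m * (ε / 2)) ≤ m ^ k * (k + 1) ^ 2 := by
    rw [pow_succ] at h5
    linarith
  have h7 := le_of_mul_le_mul_left h6 (by positivity)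
  linarith

lemma sort_facts (T : Finset ℕ) : (T.sort (· ≤ ·)).length = T.card ∧ (T.sort (· ≤ ·)).Pairwise (· < ·) ∧
    (T.sort (· ≤ ·)).toFinset = T := by
  refine ⟨length_sort _, ?_, sort_toFinset _ _⟩
  exact T.sortedLT_sort.pairwise

end Pool.Agent.TH891.Rec
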