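import Mathlib
import Pool.Agent.TH891.Rec
import Pool.Agent.Results.MP_8923e7_nt.TupleProportion

set_option autoImplicit false

/-! Recurrence along prime tuples: Ramsey theory and counting, helper891. -/

namespace Pool.Agent.TH891.Rec

open Finset MeasureTheory

universe u

variable {Ω : Type u} [MeasurableSpace Ω]

/-- almost positively correlated -/
def PT (μ : Measure Ω) (f : ℕ → Ω → ℝ) (ε : ℝ) (T : Finset ℕ) : Prop :=
  (∏ t ∈ T, ∫ ω, f t ω ∂μ) - ε ≤ ∫ ω, ∏ t ∈ T, f t ω ∂μ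

lemma PT_image (μ : Measure Ω) (f : ℕ → Ω → ℝ) (ε : ℝ) {n : ℕ} (a : Fin n → ℕ) (ha : Function.Injective a) :
    PT μ f ε (univ.image a) ↔ (∏ i, ∫ ω, f (a i) ω ∂μ) - ε ≤ ∫ ω, ∏ i, f (a i) ω ∂μ := by
  unfold PT
  rw [prod_image (fun _ _ _ _ h => ha h)]
  simp_rw [prod_image (fun (x : Fin n) _ (y : Fin n) _ (h : a x = a y) => ha h)]

open Classical in
/-- a good tuple along which the functions are almost positively correlated -/
theorem core (k : ℕ) (ε : ℝ) (hε : 0 < ε) : ∃ M : ℕ, k + 1 ≤ M ∧ ∀ V : Finset ℕ,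
    (∀ p : ℕ, p ≤ 4 * k + 1 → p.Prime → ∃ r : ℕ, ∀ v ∈ V, ¬ v ≡ r [MOD p]) → M ≤ V.card →
    ∀ (Ω : Type u) [MeasurableSpace Ω] (μ : Measure Ω) [IsProbabilityMeasure μ] (f : ℕ → Ω → ℝ),
      (∀ v ∈ V, Measurable (f v)) → (∀ v ∈ V, ∀ ω, 0 ≤ f v ω) → (∀ v ∈ V, ∀ ω, f v ω ≤ 1) →
      ∃ T ⊆ V, T.card = k + 1 ∧ {n : ℕ | ∀ t ∈ T, (n + t).Prime}.Infinite ∧ PT μ f ε T := by
  have hch : (0 : ℝ) < 1 / ((4 * k).choose k : ℝ) := by
    have : 0 < (4 * k).choose k := Nat.choose_pos (by omega)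
    positivity
  obtain ⟨n₀, hn₀⟩ := Pool.Agent.Results.MP_8923e7_nt.TupleProportion.result k
    (1 / ((4 * k).choose k : ℝ) / 2) (by positivity)
  set N : ℕ := ⌈(k + 1) * 2 ^ k * 2 / ε⌉₊ + 1 with hN
  have hN1 : (1 : ℝ) ≤ N := by rw [hN]; push_cast; linarith [(Nat.cast_nonneg ⌈((k:ℝ) + 1) * 2 ^ k * 2 / ε⌉₊ : (0:ℝ) ≤ _)]
  have hN0 : (0 : ℝ) < N := by linarith
  have hNε : (k + 1) * 2 ^ k * (1 / (N : ℝ)) ≤ ε / 2 := by
    have h1 : ((k:ℝ) + 1) * 2 ^ k * 2 / ε ≤ N := by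
      rw [hN]
      push_cast
      have := Nat.le_ceil (((k:ℝ) + 1) * 2 ^ k * 2 / ε)
      linarith
    rw [div_le_iff₀ hε] at h1
    rw [mul_one_div, div_le_iff₀ hN0]
    linarith
  set m : ℕ := max (max n₀ (k + 1)) (⌈2 * (k + 1) ^ 2 / ε⌉₊ + 1) with hm
  have hm1 : n₀ ≤ m := (le_max_left _ _).trans (le_max_left _ _)
  have hm2 : k + 1 ≤ m := (le_max_right _ _).trans (le_max_left _ _)
  have hm3 : 2 * ((k:ℝ) + 1) ^ 2 < ε * m := by
    have h1 : ⌈2 * ((k:ℝ) + 1) ^ 2 / ε⌉₊ + 1 ≤ m := le_max_right _ _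
    have h2 : 2 * ((k:ℝ) + 1) ^ 2 / ε < m := by
      have h3 := Nat.le_ceil (2 * ((k:ℝ) + 1) ^ 2 / ε)
      have h4 : ((⌈2 * ((k:ℝ) + 1) ^ 2 / ε⌉₊ : ℕ) : ℝ) + 1 ≤ m := by exact_mod_cast h1
      linarith
    rw [div_lt_iff₀ hε] at h2
    linarith
  obtain ⟨NR, hNR⟩ := Pool.Agent.Helper745.FSub.ramsey5_gen Bool (k + 1) m
  refine ⟨max ((N + 1) * NR) (k + 1), le_max_right _ _, ?_⟩
  intro V hV hVcard Ω _ μ _ f hf hf0 hf1
  have hVc : (N + 1) * NR ≤ V.card := (le_max_left _ _).trans hVcard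
  have hint : ∀ v ∈ V, Integrable (f v) μ := by
    intro v hv
    refine Integrable.of_bound (C := 1) (hf v hv).aestronglyMeasurable ?_
    filter_upwards with ω
    rw [Real.norm_eq_abs, abs_of_nonneg (hf0 v hv ω)]
    exact hf1 v hv ω
  have hI0 : ∀ v ∈ V, 0 ≤ ∫ ω, f v ω ∂μ := fun v hv => integral_nonneg fun ω => hf0 v hv ω
  have hI1 : ∀ v ∈ V, ∫ ω, f v ω ∂μ ≤ 1 := by
    intro v hv
    calc ∫ ω, f v ω ∂μ ≤ ∫ _ω, (1 : ℝ) ∂μ := integral_mono (hint v hv) (integrable_const _) (fun ω => hf1 v hv ω)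
      _ = 1 := by simp
  -- pigeonhole for the means
  obtain ⟨j, hj, hjc⟩ := exists_le_card_fiber_of_mul_le_card_of_maps_to (s := V) (t := range (N + 1))
    (f := fun v => ⌊N * ∫ ω, f v ω ∂μ⌋₊) (n := NR) (by
      intro v hv
      rw [mem_range]
      have h1 : (N : ℝ) * ∫ ω, f v ω ∂μ ≤ N := by
        have := mul_le_mul_of_nonneg_left (hI1 v hv) hN0.le
        linarith
      have h2 : ⌊(N : ℝ) * ∫ ω, f v ω ∂μ⌋₊ ≤ N := by
        have h3 := Nat.floor_le_floor h1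
        rwa [Nat.floor_natCast] at h3
      omega) ⟨0, by simp⟩ (by rw [card_range]; exact hVc)
  set V1 := V.filter (fun v => ⌊N * ∫ ω, f v ω ∂μ⌋₊ = j) with hV1
  -- Ramsey
  obtain ⟨T, hTV1, hTc, b, hb⟩ := hNR V1 (fun l => decide (PT μ f ε l.toFinset)) hjc
  have hTV : T ⊆ V := hTV1.trans (filter_subset _ _)
  have hlo : ∀ v ∈ T, (j : ℝ) / N ≤ ∫ ω, f v ω ∂μ := by
    intro v hv
    have h1 := (mem_filter.1 (hTV1 hv)).2
    rw [div_le_iff₀ hN0, mul_comm, ← h1]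
    exact Nat.floor_le (mul_nonneg hN0.le (hI0 v (hTV hv)))
  have hhi : ∀ v ∈ T, ∫ ω, f v ω ∂μ ≤ (j : ℝ) / N + 1 / N := by
    intro v hv
    have h1 := (mem_filter.1 (hTV1 hv)).2
    have h2 := Nat.lt_floor_add_one ((N : ℝ) * ∫ ω, f v ω ∂μ)
    rw [h1] at h2
    rw [← add_div, le_div_iff₀ hN0, mul_comm]
    exact h2.le
  have hjN : (j : ℝ) / N ≤ 1 := by
    rw [div_le_one hN0]
    have := mem_range.1 hj
    have h2 : j ≤ N := by omega
    exact_mod_cast h2
  -- one tuple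
  obtain ⟨a, haT, hai, haP⟩ := exists_large μ k T f (fun v hv => hf v (hTV hv)) (fun v hv => hf0 v (hTV hv))
    (fun v hv => hf1 v (hTV hv)) (β := (j : ℝ) / N) (δ := 1 / N) (ε := ε) (by positivity) hjN (by positivity)
    (by rw [div_le_one hN0]; exact hN1) hNε hlo hhi hε (by rw [hTc]; exact hm3) (by omega)
  have hcol : ∀ U : Finset ℕ, U ⊆ T → U.card = k + 1 → decide (PT μ f ε U) = b := by
    intro U hU hUc
    have h1 := hb (U.sort (· ≤ ·)) (by rw [length_sort, hUc]) (sort_facts U).2.1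
      (fun x hx => hU ((mem_sort _).1 hx))
    rw [sort_toFinset] at h1
    exact h1
  have hbt : b = true := by
    rw [← hcol (univ.image a) (by
      intro x hx
      obtain ⟨i, _, rfl⟩ := mem_image.1 hx
      exact haT i) (by rw [card_image_of_injective _ hai, card_univ, Fintype.card_fin])]
    rw [decide_eq_true_iff, PT_image μ f ε a hai]
    exact haP
  -- prime tuples
  have hpt := hn₀ T (by
    intro p hp hpp
    obtain ⟨r, hr⟩ := hV p hp hpp
    exact ⟨r, fun v hv => hr v (hTV hv)⟩) (by omega)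
  have hTpos : (0 : ℝ) < T.card := by
    have : 0 < T.card := by omega
    exact_mod_cast this
  have hpos : (0 : ℝ) < (1 / ((4 * k).choose k : ℝ) - 1 / ((4 * k).choose k : ℝ) / 2) * (T.card : ℝ) ^ (k + 1) := by
    apply mul_pos (by linarith)
    positivity
  have hne : ({a : Fin (k + 1) → ℕ | (∀ i, a i ∈ T) ∧ Function.Injective a ∧
      {n : ℕ | ∀ i, (n + a i).Prime}.Infinite}).Nonempty := by
    rw [Set.nonempty_iff_ne_empty]
    intro h0
    rw [h0, Set.ncard_empty] at hpt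
    simp only [Nat.cast_zero] at hpt
    linarith
  obtain ⟨c, hcT, hci, hcP⟩ := hne
  refine ⟨univ.image c, ?_, ?_, ?_, ?_⟩
  · intro x hx
    obtain ⟨i, _, rfl⟩ := mem_image.1 hx
    exact hTV (hcT i)
  · rw [card_image_of_injective _ hci, card_univ, Fintype.card_fin]
  · refine hcP.mono ?_
    intro n hn t ht
    obtain ⟨i, _, rfl⟩ := mem_image.1 ht
    exact hn i
  · have h1 := hcol (univ.image c) (by
      intro x hx
      obtain ⟨i, _, rfl⟩ := mem_image.1 hx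
      exact hcT i) (by rw [card_image_of_injective _ hci, card_univ, Fintype.card_fin])
    rw [hbt, decide_eq_true_iff] at h1
    exact h1

/-- supersaturation -/
lemma supersat (V : Finset ℕ) (F : Finset (Finset ℕ)) (r M : ℕ) (hF : ∀ T ∈ F, T ⊆ V ∧ T.card = r)
    (hr : r ≤ M) (hM : M ≤ V.card) (h : ∀ S ∈ V.powersetCard M, ∃ T ∈ F, T ⊆ S) :
    V.card.choose r ≤ F.card * M.choose r := by
  classical
  have h1 : (V.powersetCard M).card ≤ ∑ T ∈ F, ((V.powersetCard M).filter (fun S => T ⊆ S)).card := by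
    refine le_trans (card_le_card ?_) card_biUnion_le
    intro S hS
    obtain ⟨T, hT, hTS⟩ := h S hS
    rw [mem_biUnion]
    exact ⟨T, hT, mem_filter.2 ⟨hS, hTS⟩⟩
  have h2 : ∀ T ∈ F, ((V.powersetCard M).filter (fun S => T ⊆ S)).card ≤ (V.card - r).choose (M - r) := by
    intro T hT
    obtain ⟨hTV, hTc⟩ := hF T hT
    have h3 : ((V \ T).powersetCard (M - r)).card = (V.card - r).choose (M - r) := by
      rw [card_powersetCard, card_sdiff_of_subset hTV, hTc]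
    rw [← h3]
    apply card_le_card_of_injOn (fun S => S \ T)
    · intro S hS
      rw [mem_coe, mem_filter, mem_powersetCard] at hS
      obtain ⟨⟨a1, a2⟩, a3⟩ := hS
      rw [mem_coe, mem_powersetCard]
      refine ⟨sdiff_subset_sdiff a1 (Subset.refl T), ?_⟩
      rw [card_sdiff_of_subset a3, a2, hTc]
    · intro S hS S' hS' he
      rw [mem_coe, mem_filter] at hS hS'
      simp only at he
      have e1 := sdiff_union_of_subset hS.2
      have e2 := sdiff_union_of_subset hS'.2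
      rw [← e1, ← e2, he]
  have h4 : V.card.choose M ≤ F.card * (V.card - r).choose (M - r) := by
    rw [card_powersetCard] at h1
    refine h1.trans ?_
    refine (sum_le_card_nsmul _ _ _ h2).trans (le_of_eq ?_)
    rw [smul_eq_mul]
  have h5 : V.card.choose M * M.choose r = V.card.choose r * (V.card - r).choose (M - r) :=
    Nat.choose_mul hr
  have h6 : 0 < (V.card - r).choose (M - r) := Nat.choose_pos (by omega)
  have h7 : V.card.choose r * (V.card - r).choose (M - r) ≤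
      (F.card * M.choose r) * (V.card - r).choose (M - r) := by
    rw [← h5]
    calc V.card.choose M * M.choose r ≤ (F.card * (V.card - r).choose (M - r)) * M.choose r :=
          Nat.mul_le_mul_right _ h4
      _ = _ := by ring
  exact Nat.le_of_mul_le_mul_right h7 h6

lemma choose_low (n r : ℕ) (h : 2 * r ≤ n) : ((n : ℝ) / 2) ^ r / r.factorial ≤ (n.choose r : ℝ) := by
  have h1 := Nat.pow_le_choose r n (α := ℝ)
  refine le_trans ?_ h1
  apply div_le_div_of_nonneg_right _ (by positivity)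
  apply pow_le_pow_left₀ (by positivity)
  have h2 : (n : ℝ) / 2 ≤ ((n + 1 - r : ℕ) : ℝ) := by
    rw [div_le_iff₀ (by norm_num : (0:ℝ) < 2)]
    have : n ≤ (n + 1 - r) * 2 := by omega
    exact_mod_cast this
  exact h2

open Classical in
/-- **recurrence along good tuples** -/
theorem main (k : ℕ) (ε : ℝ) (hε : 0 < ε) : ∃ (M : ℕ) (c : ℝ), 0 < c ∧ ∀ V : Finset ℕ,
    (∀ p : ℕ, p ≤ 4 * k + 1 → p.Prime → ∃ r : ℕ, ∀ v ∈ V, ¬ v ≡ r [MOD p]) → M ≤ V.card →
    ∀ (Ω : Type u) [MeasurableSpace Ω] (μ : Measure Ω) [IsProbabilityMeasure μ] (f : ℕ → Ω → ℝ),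
      (∀ v ∈ V, Measurable (f v)) → (∀ v ∈ V, ∀ ω, 0 ≤ f v ω ∧ f v ω ≤ 1) →
      c * (V.card : ℝ) ^ (k + 1) ≤
        ({a : Fin (k + 1) → ℕ | (∀ i, a i ∈ V) ∧ Function.Injective a ∧
          {n : ℕ | ∀ i, (n + a i).Prime}.Infinite ∧
          (∏ i, ∫ ω, f (a i) ω ∂μ) - ε ≤ ∫ ω, ∏ i, f (a i) ω ∂μ}.ncard : ℝ) := by
  obtain ⟨M, hkM, hM⟩ := core.{u} k ε hε
  have hMc : 0 < M.choose (k + 1) := Nat.choose_pos hkM
  have hMc' : (0 : ℝ) < M.choose (k + 1) := by exact_mod_cast hMc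
  have hf0 : (0 : ℝ) < (k + 1).factorial := by exact_mod_cast (k + 1).factorial_pos
  refine ⟨max M (2 * (k + 1)), 1 / (2 ^ (k + 1) * (k + 1).factorial * M.choose (k + 1)), by positivity, ?_⟩
  intro V hV hVc Ω _ μ _ f hf hf01
  have hVM : M ≤ V.card := (le_max_left _ _).trans hVc
  have hV2 : 2 * (k + 1) ≤ V.card := (le_max_right _ _).trans hVc
  set F := (V.powersetCard (k + 1)).filter (fun T => {n : ℕ | ∀ t ∈ T, (n + t).Prime}.Infinite ∧ PT μ f ε T)
    with hF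
  have hss := supersat V F (k + 1) M (by
      intro T hT
      rw [hF, mem_filter, mem_powersetCard] at hT
      exact hT.1) hkM hVM (by
      intro S hS
      rw [mem_powersetCard] at hS
      obtain ⟨T, hTS, hTc, h1, h2⟩ := hM S (by
        intro p hp hpp
        obtain ⟨r, hr⟩ := hV p hp hpp
        exact ⟨r, fun v hv => hr v (hS.1 hv)⟩) hS.2.ge Ω μ f (fun v hv => hf v (hS.1 hv))
        (fun v hv ω => (hf01 v (hS.1 hv) ω).1) (fun v hv ω => (hf01 v (hS.1 hv) ω).2)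
      refine ⟨T, ?_, hTS⟩
      rw [hF, mem_filter, mem_powersetCard]
      exact ⟨⟨hTS.trans hS.1, hTc⟩, h1, h2⟩)
  set G := (Fintype.piFinset (fun _ : Fin (k + 1) => V)).filter (fun a => Function.Injective a ∧
    {n : ℕ | ∀ i, (n + a i).Prime}.Infinite ∧
    (∏ i, ∫ ω, f (a i) ω ∂μ) - ε ≤ ∫ ω, ∏ i, f (a i) ω ∂μ) with hG
  have hGset : {a : Fin (k + 1) → ℕ | (∀ i, a i ∈ V) ∧ Function.Injective a ∧
          {n : ℕ | ∀ i, (n + a i).Prime}.Infinite ∧
          (∏ i, ∫ ω, f (a i) ω ∂μ) - ε ≤ ∫ ω, ∏ i, f (a i) ω ∂μ} = (G : Set (Fin (k + 1) → ℕ)) := by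
    ext a
    rw [hG, coe_filter, Set.mem_ofPred_eq, Set.mem_ofPred_eq, Fintype.mem_piFinset]
  rw [hGset, Set.ncard_coe_finset]
  have hFG : F.card ≤ G.card := by
    have hsub : F ⊆ G.image (fun a => univ.image a) := by
      intro T hT
      rw [hF, mem_filter, mem_powersetCard] at hT
      obtain ⟨⟨hTV, hTc⟩, hT1, hT2⟩ := hT
      have him : univ.image (fun i => T.orderEmbOfFin hTc i) = T := image_orderEmbOfFin_univ T hTc
      rw [mem_image]
      refine ⟨fun i => T.orderEmbOfFin hTc i, ?_, him⟩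
      have hinj : Function.Injective (fun i => T.orderEmbOfFin hTc i) := (T.orderEmbOfFin hTc).injective
      rw [hG, mem_filter, Fintype.mem_piFinset]
      refine ⟨fun i => hTV (orderEmbOfFin_mem T hTc i), hinj, ?_, ?_⟩
      · refine hT1.mono ?_
        intro n hn i
        exact hn _ (orderEmbOfFin_mem T hTc i)
      · rw [← PT_image μ f ε _ hinj, him]
        exact hT2
    exact (card_le_card hsub).trans card_image_le
  have hlow := choose_low V.card (k + 1) hV2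
  have h1 : (V.card.choose (k + 1) : ℝ) ≤ (G.card : ℝ) * M.choose (k + 1) := by
    have h2 : V.card.choose (k + 1) ≤ G.card * M.choose (k + 1) := hss.trans (Nat.mul_le_mul_right _ hFG)
    exact_mod_cast h2
  have h3 := hlow.trans h1
  rw [div_pow, div_div, div_le_iff₀ (by positivity)] at h3
  rw [one_div_mul_eq_div, div_le_iff₀ (by positivity)]
  calc (V.card : ℝ) ^ (k + 1) ≤ (G.card : ℝ) * (M.choose (k + 1)) * (2 ^ (k + 1) * ((k + 1).factorial : ℝ)) := h3
    _ = _ := by ring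

end Pool.Agent.TH891.Rec
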